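import Pool.Agent.H367.OT.GDefs
import Pool.Agent.H854.SQ.Univ
import Pool.Agent.H854.SQ.Deg

/-!
# The components of the graded universal system
-/

set_option autoImplicit false

open MvPolynomial Pool.Agent.H854.SQ
open Pool.Agent.H367.OS (relNum)

universe u

namespace Pool.Agent.H367.OT

section deg

theorem totalDegree_eqnG (k : Type u) [CommRing k] [Nontrivial k] {n : ℕ} (e : EqnG n) :
    (eqnG k e).totalDegree ≤ 2 := by
  rcases e with e | p
  · exact (totalDegree_rename_le _ _).trans (totalDegree_eqn k e)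
  · refine (totalDegree_mul _ _).trans (add_le_add ?_ (totalDegree_X _).le)
    refine (totalDegree_sub _ _).trans (max_le ?_ (totalDegree_X _).le)
    rw [totalDegree_one]
    exact Nat.zero_le _

/-- The polynomial is cubic. -/
theorem totalDegree_univG (k : Type u) [CommRing k] [Nontrivial k] (n : ℕ) :
    (univG k n).totalDegree ≤ 3 := by
  refine totalDegree_finsetSum_le fun e _ => (totalDegree_mul _ _).trans ?_
  have h1 := (totalDegree_rename_le (Sum.inr : VarG n → EqnG n ⊕ VarG n) (eqnG k e)).trans
    (totalDegree_eqnG k e)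
  have h2 : (X (Sum.inl e) : MvPolynomial (EqnG n ⊕ VarG n) k).totalDegree ≤ 1 :=
    (totalDegree_X _).le
  omega

theorem map_eqnG {R S : Type u} [CommRing R] [CommRing S] (f : R →+* S) {n : ℕ}
    (e : EqnG n) : MvPolynomial.map f (eqnG R e) = eqnG S e := by
  rcases e with e | p
  · rw [eqnG, map_rename, map_eqn]
    rfl
  · simp [eqnG]

/-- The polynomial is defined over the integers. -/
theorem map_univG {R S : Type u} [CommRing R] [CommRing S] (f : R →+* S) (n : ℕ) :
    MvPolynomial.map f (univG R n) = univG S n := by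
  rw [univG, map_sum, univG]
  refine Finset.sum_congr rfl fun e _ => ?_
  rw [map_mul, map_X, map_rename, map_eqnG]

end deg

section comp

variable (k : Type u) [Field k] {n : ℕ}

/-- The ideal of the graded universal system. -/
noncomputable def idealG (n : ℕ) : Ideal (MvPolynomial (VarG n) k) :=
  Ideal.span (Set.range (eqnG k : EqnG n → MvPolynomial (VarG n) k))

/-- The variable `cᵣ`. -/
noncomputable def vcG (r : Rel (Fin n)) : MvPolynomial (VarG n) k :=
  X (Sum.inl (.inr (.inr r)))

open Classical in
/-- The polynomial `1 - cᵣ` if `r ∈ s`, and `cᵣ` otherwise. -/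
noncomputable def lit (s : Finset (Rel (Fin n))) (r : Rel (Fin n)) : MvPolynomial (VarG n) k :=
  if r ∈ s then 1 - vcG k r else vcG k r

/-- The ideal of the part where `cᵣ = 1` for `r ∈ F ∩ s` and `cᵣ = 0` for `r ∈ F ∖ s`. -/
noncomputable def part (F s : Finset (Rel (Fin n))) : Ideal (MvPolynomial (VarG n) k) :=
  idealG k n ⊔ Ideal.span (lit k s '' (F : Set (Rel (Fin n))))

/-- The ring of the scheme `X_s` defined by the relations in `s`. -/
abbrev Sys (s : Finset (Rel (Fin n))) : Type u :=
  MvPolynomial (Fin n) k ⧸ Ideal.span (relPoly k '' (s : Set (Rel (Fin n))))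

/-- The additional variables of the relations in `s`. -/
abbrev ExtIn (s : Finset (Rel (Fin n))) : Type := {p : Ext n // p.1 ∈ s}

variable {k} (s : Finset (Rel (Fin n)))

open Classical in
/-- The values of the variables on the component of `s`. -/
noncomputable def valG : VarG n → MvPolynomial (ExtIn s) (Sys k s)
  | .inl (.inl i) => C (Ideal.Quotient.mk _ (X i))
  | .inl (.inr (.inl (i, j))) => C (Ideal.Quotient.mk _ (X i * X j))
  | .inl (.inr (.inr r)) => if r ∈ s then 1 else 0
  | .inr p => if h : p.1 ∈ s then X ⟨p, h⟩ else 0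

theorem relPoly_zero {r : Rel (Fin n)} (hr : r ∈ s) :
    (Ideal.Quotient.mk (Ideal.span (relPoly k '' (s : Set (Rel (Fin n))))) (relPoly k r)) = 0 :=
  Ideal.Quotient.eq_zero_iff_mem.2 (Ideal.subset_span ⟨r, Finset.mem_coe.2 hr, rfl⟩)

theorem aeval_valG_linRel (r : Rel (Fin n)) :
    aeval (valG (k := k) s) (rename Sum.inl (linRel k r)) =
      C (Ideal.Quotient.mk _ (relPoly k r)) := by
  rcases r with ⟨i, j, l⟩ | ⟨i, j, l⟩ | i <;>
    simp [linRel, relPoly, vx, vz, valG]

theorem aeval_valG_eqnG (e : EqnG n) : aeval (valG (k := k) s) (eqnG k e) = 0 := by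
  rcases e with (⟨i, j⟩ | r | r) | p
  · simp [eqnG, eqn, vx, vz, valG]
  · by_cases hr : r ∈ s <;> simp [eqnG, eqn, vc, valG, hr]
  · rw [eqnG, eqn, map_mul, map_mul, aeval_valG_linRel]
    by_cases hr : r ∈ s
    · rw [relPoly_zero s hr, map_zero, mul_zero]
    · simp [vc, valG, hr]
  · by_cases hr : p.1 ∈ s <;> simp [eqnG, valG, hr]

theorem aeval_valG_lit (r : Rel (Fin n)) : aeval (valG (k := k) s) (lit k s r) = 0 := by
  by_cases hr : r ∈ s <;> simp [lit, vcG, valG, hr]

theorem part_le_ker : part k Finset.univ s ≤ RingHom.ker (aeval (valG (k := k) s) :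
    MvPolynomial (VarG n) k →ₐ[k] MvPolynomial (ExtIn s) (Sys k s)) := by
  rw [part, idealG, sup_le_iff, Ideal.span_le, Ideal.span_le]
  constructor
  · rintro _ ⟨e, rfl⟩
    exact aeval_valG_eqnG s e
  · rintro _ ⟨r, -, rfl⟩
    exact aeval_valG_lit s r

/-- From the component of `s`. -/
noncomputable def compF : (MvPolynomial (VarG n) k ⧸ part k Finset.univ s) →ₐ[k]
    MvPolynomial (ExtIn s) (Sys k s) :=
  Ideal.Quotient.liftₐ _ (aeval (valG (k := k) s)) fun _ ha => part_le_ker s ha

theorem compF_X (v : VarG n) : compF (k := k) s (Ideal.Quotient.mk _ (X v)) = valG s v := by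
  change aeval (valG (k := k) s) (X v) = _
  rw [aeval_X]

theorem mk_eqnG (e : EqnG n) : Ideal.Quotient.mk (part k Finset.univ s) (eqnG k e) = 0 :=
  Ideal.Quotient.eq_zero_iff_mem.2 (Ideal.mem_sup_left (Ideal.subset_span ⟨e, rfl⟩))

theorem mk_lit (r : Rel (Fin n)) : Ideal.Quotient.mk (part k Finset.univ s) (lit k s r) = 0 :=
  Ideal.Quotient.eq_zero_iff_mem.2 (Ideal.mem_sup_right (Ideal.subset_span
    ⟨r, Finset.mem_coe.2 (Finset.mem_univ r), rfl⟩))

theorem mk_vc_mem {r : Rel (Fin n)} (hr : r ∈ s) :
    Ideal.Quotient.mk (part k Finset.univ s) (vcG k r) = 1 := by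
  have h := mk_lit (k := k) s r
  rw [lit, if_pos hr, map_sub, map_one, sub_eq_zero] at h
  exact h.symm

theorem mk_vc_notMem {r : Rel (Fin n)} (hr : r ∉ s) :
    Ideal.Quotient.mk (part k Finset.univ s) (vcG k r) = 0 := by
  have h := mk_lit (k := k) s r
  rwa [lit, if_neg hr] at h

theorem mk_z (i j : Fin n) :
    Ideal.Quotient.mk (part k Finset.univ s) (X (Sum.inl (.inr (.inl (i, j))))) =
      Ideal.Quotient.mk (part k Finset.univ s) (X (Sum.inl (.inl i))) *
        Ideal.Quotient.mk (part k Finset.univ s) (X (Sum.inl (.inl j))) := by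
  have h := mk_eqnG (k := k) s (.inl (.inl (i, j)))
  rw [eqnG, eqn, map_sub, map_sub, sub_eq_zero, map_mul, map_mul, vz, vx, vx, rename_X, rename_X,
    rename_X] at h
  exact h

/-- From the ring of `X_s` to the ring of the component. -/
noncomputable def sysG : Sys k s →ₐ[k] (MvPolynomial (VarG n) k ⧸ part k Finset.univ s) :=
  Ideal.Quotient.liftₐ _ (aeval fun i => Ideal.Quotient.mk _ (X (Sum.inl (.inl i)))) (by
    have h : Ideal.span (relPoly k '' (s : Set (Rel (Fin n)))) ≤ RingHom.ker (aeval fun i =>
        Ideal.Quotient.mk (part k Finset.univ s) (X (Sum.inl (.inl i))) :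
          MvPolynomial (Fin n) k →ₐ[k] _) := by
      rw [Ideal.span_le]
      rintro _ ⟨r, hr, rfl⟩
      have h1 := mk_eqnG (k := k) s (.inl (.inr (.inr r)))
      rw [eqnG, eqn, map_mul, map_mul] at h1
      have h2 := mk_vc_mem (k := k) s (Finset.mem_coe.1 hr)
      have h3 : rename Sum.inl (vc k r) = vcG k r := by rw [vc, rename_X]; rfl
      rw [h3, h2, one_mul] at h1
      rw [SetLike.mem_coe, RingHom.mem_ker]
      rw [← h1]
      rcases r with ⟨i, j, l⟩ | ⟨i, j, l⟩ | i
      · simp only [linRel, relPoly, vx, vz, map_sub, map_mul, rename_X, aeval_X]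
        rw [mk_z]
      · simp only [linRel, relPoly, vx, map_sub, map_add, rename_X, aeval_X]
      · simp only [linRel, relPoly, vx, map_sub, map_one, rename_X, aeval_X]
    exact fun a ha => h ha)

theorem sysG_X (i : Fin n) : sysG (k := k) s (Ideal.Quotient.mk _ (X i)) =
    Ideal.Quotient.mk _ (X (Sum.inl (.inl i))) := by
  change aeval _ (X i) = _
  rw [aeval_X]

/-- To the component of `s`. -/
noncomputable def compG : MvPolynomial (ExtIn s) (Sys k s) →ₐ[k]
    (MvPolynomial (VarG n) k ⧸ part k Finset.univ s) :=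
  aevalTower (sysG s) fun p => Ideal.Quotient.mk _ (X (Sum.inr p.1))

theorem compG_C (a : Sys k s) : compG s (C a) = sysG s a := aevalTower_C _ _ _

theorem compG_X (p : ExtIn s) : compG (k := k) s (X p) = Ideal.Quotient.mk _ (X (Sum.inr p.1)) :=
  aevalTower_X _ _ _

/-- The component of `s` is the product of `X_s` and an affine space. -/
noncomputable def compE : (MvPolynomial (VarG n) k ⧸ part k Finset.univ s) ≃ₐ[k]
    MvPolynomial (ExtIn s) (Sys k s) :=
  AlgEquiv.ofAlgHom (compF s) (compG s)
    (by
      apply MvPolynomial.algHom_ext'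
      · apply Ideal.Quotient.algHom_ext
        apply MvPolynomial.algHom_ext
        intro i
        change compF s (compG s (C (Ideal.Quotient.mk _ (X i)))) = C (Ideal.Quotient.mk _ (X i))
        rw [compG_C, sysG_X, compF_X]
        rfl
      · intro p
        rw [AlgHom.comp_apply, compG_X, compF_X]
        simp [valG, p.2])
    (by
      apply Ideal.Quotient.algHom_ext
      apply MvPolynomial.algHom_ext
      intro v
      change compG s (compF s (Ideal.Quotient.mk _ (X v))) = Ideal.Quotient.mk _ (X v)
      rw [compF_X]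
      rcases v with (i | ⟨i, j⟩ | r) | p
      · rw [valG, compG_C, sysG_X]
      · rw [valG, compG_C, map_mul, map_mul, sysG_X, sysG_X, mk_z]
      · by_cases hr : r ∈ s
        · rw [valG, if_pos hr, map_one]
          exact (mk_vc_mem s hr).symm
        · rw [valG, if_neg hr, map_zero]
          exact (mk_vc_notMem s hr).symm
      · by_cases hp : p.1 ∈ s
        · rw [valG, dif_pos hp, compG_X]
        · rw [valG, dif_neg hp, map_zero]
          have h := mk_eqnG (k := k) s (.inr p)
          rw [eqnG, map_mul, map_sub, map_one] at h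
          have h2 := mk_vc_notMem (k := k) s hp
          rw [vcG] at h2
          rw [h2, sub_zero, one_mul] at h
          exact h.symm)

end comp

end Pool.Agent.H367.OT
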