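import Pool.Agent.H367.OT.GMain

/-!
# The dictionary, one index at a time (larger bounds)
-/

set_option autoImplicit false

open CategoryTheory CategoryTheory.Limits AlgebraicGeometry MvPolynomial Pool.Agent.Y116.UV
  Pool.Agent.Z125.UN Pool.Agent.Q193.LT Pool.Agent.Q49.WU Pool.Agent.H854.SQ
open Pool.Agent.H367.OS (code code_injective krull_sys)

universe w w' v u

namespace Pool.Agent.H367.OT

/-- The number of the equations of the graded universal system. -/
def numEqn (m : ℕ) : ℕ := Fintype.card (EqnG m)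

/-- The index `q + (m + 1)^2 N + E_m - 1`, where `E_m` is the number of the equations. -/
def idx (m : ℕ) (q : ℤ) (N : ℕ) : ℤ := q + (m + 1) ^ 2 * N + (numEqn m - 1)

/-- The dimension of the schemes `X_s`. -/
lemma krull_sys (k : Type) [Field k] {n : ℕ} (t : Finset (Rel (Fin n))) :
    ringKrullDim (Sys k t) ≤ n := by
  refine (ringKrullDim_quotient_le _).trans ?_
  rw [MvPolynomial.ringKrullDim_of_isNoetherianRing, ringKrullDim_eq_zero_of_field]
  simp

section

variable {k : Type} [Field k] {P : ℤ → Sch k → Prop} {c : ℕ} (hP : Bounded c P) {n : ℕ}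

include hP

/-- From the zero set of the equations to the hypersurface and back, index by index. -/
lemma Bounded.zero_set_iff (m : ℕ) {q : ℤ} (hq : q + c < Nat.card (VarG m)) :
    P (q + (numEqn m - 1)) (cubG k m) ↔
      P q (aff k (MvPolynomial (VarG m) k ⧸ idealG k m)) := by
  let f := eqsG k m
  let A := MvPolynomial (VarG m) k
  have h0 : P q (aff k A) := by
    rw [hP.poly]
    exact hP.low _ _ (by linarith)
  have h2 : P (q + (numEqn m - 1)) (cubG k m) ↔ P q (opn (aff k A) (neOpen k f)) := by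
    have h3 := hP.bundle A _ f (opn (aff k A) (neOpen k f)) (opnMap (aff k A) (neOpen k f))
      inferInstance (range_opnMap _ _) (q + (numEqn m - 1))
    have h4 : q + ((numEqn m : ℤ) - 1) + (1 - (Fintype.card (EqnG m) : ℕ)) = q := by
      rw [numEqn]
      ring
    rw [h4] at h3
    have h5 : Algebra.FiniteType k (Jou f) :=
      Algebra.FiniteType.trans (S := A) inferInstance inferInstance
    exact ⟨fun h => h3.mp (hP.iso_alg (cubEquivG k m) h),
      fun h => hP.iso_alg (cubEquivG k m).symm (h3.mpr h)⟩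
  rw [h2, ← idealG_eq]
  have ht : IsTriple (affMap (Ideal.Quotient.mkₐ k (Ideal.span (Set.range f))))
      (opnMap (aff k A) (neOpen k f)) := by
    refine ⟨closed_affMap _ (Ideal.Quotient.mkₐ_surjective k _), inferInstance, ?_⟩
    rw [range_affMap _ (Ideal.Quotient.mkₐ_surjective k _), range_opnMap]
    ext x
    change (∀ a, Ideal.Quotient.mk (Ideal.span (Set.range f)) a = 0 → a ∈ x.asIdeal) ↔
      ¬ ∃ l, f l ∉ x.asIdeal
    push Not
    constructor
    · intro h l
      exact h (f l) (Ideal.Quotient.eq_zero_iff_mem.mpr (Ideal.subset_span ⟨l, rfl⟩))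
    · intro h a ha
      rw [Ideal.Quotient.eq_zero_iff_mem] at ha
      refine (Ideal.span_le.mpr ?_ : Ideal.span (Set.range f) ≤ x.asIdeal) ha
      rintro _ ⟨l, rfl⟩
      exact h l
  exact ⟨fun h => hP.closed _ _ (ft_aff True) ht q h0 h,
    fun h => hP.opened _ _ (ft_aff True) ht q h h0⟩

/-- The components of the zero set. -/
lemma Bounded.comp_iff (t : Finset (Rel (Fin n))) (q : ℤ) : P q (Pt k Finset.univ t) ↔
    P (q - ((n + 1) ^ 2 * code t : ℕ)) (aff k (Sys k t)) := by
  have : Algebra.FiniteType k (MvPolynomial (ExtIn t) (Sys k t)) :=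
    Algebra.FiniteType.trans (S := Sys k t) inferInstance inferInstance
  rw [← card_extIn, ← hP.poly]
  exact ⟨hP.iso_alg (compE t), hP.iso_alg (compE t).symm⟩

/-- The components with another code do not contribute. -/
lemma Bounded.other (hc : 2 * c ≤ n) (t : Finset (Rel (Fin n))) {N : ℕ} (ht : code t ≠ N) {q : ℤ}
    (hq0 : -c ≤ q) (hqn : q ≤ n) : P (q + ((n + 1) ^ 2 * N : ℕ)) (Pt k Finset.univ t) := by
  have hc' : 2 * (c : ℤ) ≤ n := by exact_mod_cast hc
  rw [hP.comp_iff]
  rcases lt_or_gt_of_ne ht with hlt | hgt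
  · refine hP.high _ n (krull_sys k t) _ ?_
    have h1 : ((code t : ℤ) + 1) ≤ N := by exact_mod_cast hlt
    have h2 : ((n : ℤ) + 1) ^ 2 * ((code t : ℤ) + 1) ≤ (n + 1) ^ 2 * N :=
      mul_le_mul_of_nonneg_left h1 (by positivity)
    push_cast
    nlinarith [Nat.zero_le n]
  · refine hP.low _ _ ?_
    have h1 : ((N : ℤ) + 1) ≤ code t := by exact_mod_cast hgt
    have h2 : ((n : ℤ) + 1) ^ 2 * ((N : ℤ) + 1) ≤ (n + 1) ^ 2 * code t :=
      mul_le_mul_of_nonneg_left h1 (by positivity)
    push_cast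
    nlinarith [Nat.zero_le n]

omit hP in
lemma idx_eq (m : ℕ) (q : ℤ) (N : ℕ) :
    idx m q N = (q + ((m + 1) ^ 2 * N : ℕ)) + (numEqn m - 1) := by
  rw [idx]
  push_cast
  ring

omit hP in
lemma small {m : ℕ} (hc : 2 * c ≤ m) (hm : 1 ≤ m) {N : ℕ} (hN : N < 2 ^ numRel m) {q : ℤ}
    (hqm : q ≤ m) : q + ((m + 1) ^ 2 * N : ℕ) + c < Nat.card (VarG m) := by
  have h1 : (((m + 1) ^ 2 * N + (m + m * m) : ℕ) : ℤ) ≤ Nat.card (VarG m) := by
    exact_mod_cast card_varG hN
  have h2 : 2 * (c : ℤ) ≤ m := by exact_mod_cast hc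
  have h3 : (1 : ℤ) ≤ m := by exact_mod_cast hm
  push_cast at h1 ⊢
  nlinarith

/-- **The dictionary.** The property with the index `q + (n + 1)^2 N(s) + E_n - 1` of the hypersurface
`G_n = 1` is the property with the index `q` of the scheme `X_s` defined by the relations in `s`. -/
theorem Bounded.dict (hc : 2 * c ≤ n) (hn : 1 ≤ n) (s : Finset (Rel (Fin n))) {q : ℤ}
    (hq0 : -c ≤ q) (hqn : q ≤ n) :
    P (idx n q (code s)) (cubG k n) ↔ P q (aff k (Sys k s)) := by
  have h2 : P (q + ((n + 1) ^ 2 * code s : ℕ)) (Pt k Finset.univ s) ↔ P q (aff k (Sys k s)) := by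
    rw [hP.comp_iff, add_sub_cancel_right]
  rw [idx_eq, hP.zero_set_iff n (small hc hn (code_lt s) hqn), ← h2]
  constructor
  · intro h
    exact hP.component _ s h fun t hts => hP.other hc t (code_injective.ne hts) hq0 hqn
  · intro h
    have h3 := hP.of_components (q + ((n + 1) ^ 2 * code s : ℕ)) ∅ s fun t _ => by
      by_cases hts : t = s
      · rw [hts]
        exact h
      · exact hP.other hc t (code_injective.ne hts) hq0 hqn
    rw [Pt, part_empty] at h3
    exact h3

lemma Bounded.of_all {m : ℕ} (hc : 2 * c ≤ m) (hm : 1 ≤ m) {q : ℤ} (hq0 : -c ≤ q)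
    (hqm : q ≤ m) (h : ∀ X : Sch k, FT True X → P q X) {N : ℕ} (hN : N < 2 ^ numRel m) :
    P (idx m q N) (cubG k m) := by
  rw [idx_eq, hP.zero_set_iff m (small hc hm hN hqm), ← part_empty ∅]
  refine hP.of_components _ ∅ ∅ fun t _ => ?_
  by_cases he : code t = N
  · rw [hP.comp_iff, he, add_sub_cancel_right]
    exact h _ (ft_aff True)
  · exact hP.other hc t he hq0 hqm

end

section main

variable {k : Type} [Field k]

/-- **One index of one hypersurface for an affine scheme.** -/
theorem exact_index (hk : IsPrimeField k) (B : Type) [CommRing B] [Algebra k B]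
    [Algebra.FiniteType k B] : ∃ m₀ : ℕ, ∀ m, m₀ ≤ m → ∃ N : ℕ, N < 2 ^ numRel m ∧
      ∀ (c : ℕ) (P : ℤ → Sch k → Prop), Bounded c P → 2 * c ≤ m → ∀ q : ℤ, -c ≤ q → q ≤ m →
        (P (idx m q N) (cubG k m) ↔ P q (aff k B)) := by
  classical
  obtain ⟨m₀, hm⟩ := exists_fin (B := B) hk
  refine ⟨max m₀ 1, fun m hm1 => ?_⟩
  obtain ⟨b, hb, hp⟩ := hm m ((le_max_left _ _).trans hm1)
  let s : Finset (Rel (Fin m)) := Finset.univ.filter (· ∈ holds k b)
  refine ⟨code s, code_lt s, fun c P hP hc q hq0 hqm => ?_⟩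
  have h1 : Ideal.span (relPoly k '' (s : Set (Rel (Fin m)))) =
      RingHom.ker (aeval b : MvPolynomial (Fin m) k →ₐ[k] B) := by
    have h2 : (s : Set (Rel (Fin m))) = holds k b := by
      ext r
      simp [s]
    rw [h2]
    exact le_antisymm (fun f hf => span_le_of_holds b hf) fun f hf => hp f hf
  let e : Sys k s ≃ₐ[k] B := (Ideal.quotientEquivAlgOfEq k h1).trans
    (Ideal.quotientKerAlgEquivOfSurjective hb)
  rw [hP.dict hc ((le_max_right _ _).trans hm1) s hq0 hqm]
  exact ⟨hP.iso_alg e, hP.iso_alg e.symm⟩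

/-- One hypersurface `G_m = 1`, and the indices belonging to `q`, are sufficient for `P q` and a given
scheme. -/
theorem single_index (hk : IsPrimeField k) (X : Sch k) (hX : FT True X) :
    ∃ m₀ : ℕ, ∀ m, m₀ ≤ m → ∀ (c : ℕ) (P : ℤ → Sch k → Prop), Bounded c P → 2 * c ≤ m →
      ∀ q : ℤ, -c ≤ q → q ≤ m → (∀ N : ℕ, N < 2 ^ numRel m → P (idx m q N) (cubG k m)) →
        P q X := by
  refine of_affine' (sep := True) (P := fun X => ∃ m₀ : ℕ, ∀ m, m₀ ≤ m →
    ∀ (c : ℕ) (P : ℤ → Sch k → Prop), Bounded c P → 2 * c ≤ m →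
      ∀ q : ℤ, -c ≤ q → q ≤ m → (∀ N : ℕ, N < 2 ^ numRel m → P (idx m q N) (cubG k m)) →
        P q X) ?_ ?_ (fun B _ _ _ => ?_) X hX
  · rintro X Y hX e ⟨m₀, h⟩
    exact ⟨m₀, fun m hm c P hP hc q h0 h1 h2 => hP.iso hX e q (h m hm c P hP hc q h0 h1 h2)⟩
  · rintro Z X U i j hX ht ⟨m₀, h⟩ ⟨m₁, h'⟩
    exact ⟨max m₀ m₁, fun m hm c P hP hc q h0 h1 h2 => hP.total i j hX ht q
      (h m ((le_max_left _ _).trans hm) c P hP hc q h0 h1 h2)
      (h' m ((le_max_right _ _).trans hm) c P hP hc q h0 h1 h2)⟩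
  · obtain ⟨m₀, hm⟩ := exact_index hk B
    refine ⟨m₀, fun m hm1 c P hP hc q h0 h1 h2 => ?_⟩
    obtain ⟨N, hN, hN'⟩ := hm m hm1
    exact (hN' c P hP hc q h0 h1).mp (h2 N hN)

/-- The hypersurfaces `G_m = 1` decide the properties `P q`, `q ≥ -c`:

* for every `q ≥ -c` the properties with the indices `q + (m + 1)^2 N + E_m - 1`, `N < 2 ^ R_m`
  (`R_m` is the number of the relations), of the hypersurfaces `G_m = 1`, for infinitely many `m`, are
  equivalent to the property `P q` of all smooth projective schemes, and of all separated schemes of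
  finite type over `k`;
* for every affine scheme `Spec B` of finite type and all large `m` there is an `N` such that for
  `-c ≤ q ≤ m` the property `P q` of `Spec B` is equivalent to the property with the index
  `q + (m + 1)^2 N + E_m - 1` of the hypersurface `G_m = 1`;
* for every separated scheme `X` of finite type, all large `m` and every `-c ≤ q ≤ m` the properties
  with the indices `q + (m + 1)^2 N + E_m - 1`, `N < 2 ^ R_m`, of the hypersurface `G_m = 1` imply the
  property `P q` of `X`. -/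
structure Decides (c : ℕ) (P : ℤ → Sch k → Prop) : Prop where
  index : ∀ q : ℤ, -c ≤ q → List.TFAE [
    ∃ᶠ m in Filter.atTop, ∀ N : ℕ, N < 2 ^ numRel m → P (idx m q N) (cubG k m),
    ∀ Y : Sch k, SmoothProj Y → P q Y,
    ∀ X : Sch k, FT True X → P q X]
  exact : ∀ (B : Type) [CommRing B] [Algebra k B] [Algebra.FiniteType k B], ∃ m₀ : ℕ, ∀ m, m₀ ≤ m →
    ∃ N : ℕ, N < 2 ^ numRel m ∧ ∀ q : ℤ, -c ≤ q → q ≤ m →
      (P (idx m q N) (cubG k m) ↔ P q (aff k B))
  single : ∀ X : Sch k, FT True X → ∃ m₀ : ℕ, ∀ m, m₀ ≤ m → ∀ q : ℤ, -c ≤ q → q ≤ m →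
    (∀ N : ℕ, N < 2 ^ numRel m → P (idx m q N) (cubG k m)) → P q X

/-- **The sequence decides**, if the properties of all schemes follow from the properties of the smooth
projective ones. -/
theorem decides_gen (hk : IsPrimeField k) {c : ℕ} {P : ℤ → Sch k → Prop} (hP : Bounded c P)
    (gen : ∀ q : ℤ, (∀ Y : Sch k, SmoothProj Y → P q Y) → ∀ X : Sch k, FT True X → P q X) :
    Decides c P where
  index q hq := by
    tfae_have 1 → 3 := fun h X hX => by
      obtain ⟨m₀, hm⟩ := single_index hk X hX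
      obtain ⟨m, hm1, hm2⟩ := (Filter.frequently_atTop.1 h) (max m₀ (max (2 * c) q.toNat))
      exact hm m ((le_max_left _ _).trans hm1) c P hP
        (((le_max_left _ _).trans (le_max_right _ _)).trans hm1) q hq
        (Int.toNat_le.1 (((le_max_right _ _).trans (le_max_right _ _)).trans hm1)) hm2
    tfae_have 3 → 2 := fun h Y hY => h Y hY.ft
    tfae_have 2 → 3 := gen q
    tfae_have 3 → 1 := fun h => by
      refine Filter.Eventually.frequently ?_
      filter_upwards [Filter.eventually_ge_atTop (max 1 (max (2 * c) q.toNat))] with m hm N hN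
      exact hP.of_all (((le_max_left _ _).trans (le_max_right _ _)).trans hm)
        ((le_max_left _ _).trans hm) hq
        (Int.toNat_le.1 (((le_max_right _ _).trans (le_max_right _ _)).trans hm)) h hN
    tfae_finish
  exact B _ _ _ := by
    obtain ⟨m₀, hm⟩ := exact_index hk B
    refine ⟨max m₀ (2 * c), fun m hm1 => ?_⟩
    obtain ⟨N, hN, hN'⟩ := hm m ((le_max_left _ _).trans hm1)
    exact ⟨N, hN, hN' c P hP ((le_max_right _ _).trans hm1)⟩
  single X hX := by
    obtain ⟨m₀, hm⟩ := single_index hk X hX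
    exact ⟨max m₀ (2 * c), fun m hm1 => hm m ((le_max_left _ _).trans hm1) c P hP
      ((le_max_right _ _).trans hm1)⟩

end main

section wuni

variable {k : Type} [Field k] {P : ℤ → Sch k → Prop}

/-- Properties with the closure properties `WUni` that are trivial outside of the range
`-c ≤ q ≤ dim X + c`. -/
theorem bounded_wuni (hP : WUni True P) {c : ℕ}
    (low : ∀ (B : Type) [CommRing B] [Algebra k B] [Algebra.FiniteType k B] (q : ℤ), q < -c →
      P q (aff k B))
    (high : ∀ (B : Type) [CommRing B] [Algebra k B] [Algebra.FiniteType k B] (n : ℕ),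
      ringKrullDim B ≤ n → ∀ q : ℤ, (n : ℤ) + c < q → P q (aff k B)) : Bounded c P where
  iso hX e q h := hP.iso q hX e h
  total i j hX ht q := hP.total q i j hX ht
  opened i j hX ht q := hP.opened q i j hX ht
  closed i j hX ht q := hP.closed q i j hX ht
  bundle B _ _ _ m f U j hj hr q := by
    have h := hP.jouanolou (q + (1 - m)) B m f U j hj hr
    have h0 : q + (1 - (m : ℤ)) + ((m : ℤ) - 1) = q := by ring
    rwa [h0] at h
  low := low
  high := high

end wuni

section pair

variable {k : Type} [Field k] {ι : Type} {E : Type w'} [CommRing E]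

/-- The groups of an affine scheme of dimension at most `d` are zero for the indices of weight `< -c`
and `> d + c`. -/
structure PBound (C : PairData.{w} k ι E) (wt : ι → ℤ) (c : ℕ) : Prop where
  low : ∀ (B : Type) [CommRing B] [Algebra k B] [Algebra.FiniteType k B] (j : ι), wt j < -c →
    Subsingleton (C.A j (aff k B)) ∧ Subsingleton (C.B j (aff k B))
  high : ∀ (B : Type) [CommRing B] [Algebra k B] [Algebra.FiniteType k B] (d : ℕ),
    ringKrullDim B ≤ d → ∀ j : ι, (d : ℤ) + c < wt j →
      Subsingleton (C.A j (aff k B)) ∧ Subsingleton (C.B j (aff k B))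

variable {C : PairData.{w} k ι E} {wt : ι → ℤ} {δ τ σ : ι ≃ ι} {c : ℕ}

theorem bounded_pair (hD : IsPair C δ τ σ) (hg : IsGraded wt δ τ σ) (hv : PBound C wt c) :
    Bounded c (BijAt C wt) where
  iso hX e N h j hj := (hD.iso hX e j).iff.mp (h j hj)
  total i j hX ht N hZ hU := by
    rw [cut_iff] at *
    rcases hD.les i j hX ht with h | h
    · exact (cut_les hg.δ h).mid hU hZ
    · exact (cut_les hg.δ h).mid hZ hU
  opened i j hX ht N hZ hX' := by
    rw [cut_iff] at *
    rcases hD.les i j hX ht with h | h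
    · exact (cut_les hg.δ h).left hX' hZ
    · exact (cut_les hg.δ h).right hZ hX'
  closed i j hX ht N hX' hU := by
    rw [cut_iff] at *
    rcases hD.les i j hX ht with h | h
    · exact (cut_les hg.δ h).right hU hX'
    · exact (cut_les hg.δ h).left hX' hU
  bundle B _ _ _ m f U j hj hr N := by
    constructor
    · intro h q hq
      obtain ⟨q, rfl⟩ := ((τ : Equiv.Perm ι) ^ (1 - m : ℤ)).surjective q
      refine (hD.bundle B m f U j hj hr q).iff.mp (h q ?_)
      rw [hg.pow] at hq
      omega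
    · intro h q hq
      refine (hD.bundle B m f U j hj hr q).iff.mpr (h _ ?_)
      rw [hg.pow]
      omega
  low B _ _ _ q hq j hj := by
    obtain ⟨h2, h3⟩ := hv.low B j (by omega)
    exact Pool.Agent.H367.OS.bij_of_sub _ h2 h3
  high B _ _ _ n hn q hq j hj := by
    obtain ⟨h2, h3⟩ := hv.high B n hn j (by omega)
    exact Pool.Agent.H367.OS.bij_of_sub _ h2 h3

/-- **The sequence decides, index by index.** -/
theorem decides_pair (hk : IsPrimeField k) (hw : GenAt C wt) (hC : IsPair C δ τ σ)
    (hg : IsGraded wt δ τ σ) (hv : PBound C wt c) : Decides c (BijAt C wt) :=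
  decides_gen hk (bounded_pair hC hg hv) fun q h => hw q h

end pair

end Pool.Agent.H367.OT
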