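import Pool.Agent.H367.OT.GDeg

/-!
# Families of graded properties
-/

set_option autoImplicit false

open CategoryTheory CategoryTheory.Limits AlgebraicGeometry MvPolynomial Pool.Agent.Y116.UV
  Pool.Agent.Z125.UN Pool.Agent.Q193.LT Pool.Agent.Q49.WU Pool.Agent.H854.SQ

universe w w' v u

namespace Pool.Agent.H367.OT

variable {k : Type} [Field k]

/-- The properties with the indices `q < -c` are true for all schemes. -/
lemma Bounded.low_all {c : ℕ} {P : ℤ → Sch k → Prop} (hP : Bounded c P) {q : ℤ} (hq : q < -c)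
    (X : Sch k) (hX : FT True X) : P q X :=
  of_affine' (sep := True) (P := fun X => P q X) (fun hX e h => hP.iso hX e q h)
    (fun i j hX ht h1 h2 => hP.total i j hX ht q h1 h2) (fun B _ _ _ => hP.low B q hq) X hX

/-- **Families of properties.** Let `P i`, `i ∈ ι`, be families of properties with the bounds `c i`, and let
`q i` be integers. The properties `P i (q i)`, for all `i`, of all smooth projective schemes are
equivalent to the properties `P i` with the indices `q i + (m + 1)^2 N + E_m - 1`, `N < 2 ^ R_m`, of the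
hypersurfaces `G_m = 1`, for all `i` with `2 c i ≤ m`, `q i ≤ m` (and `- c i ≤ q i`), for infinitely many
`m`. -/
theorem family_iff (hk : IsPrimeField k) {ι : Type u} {c : ι → ℕ} {P : ι → ℤ → Sch k → Prop}
    (hP : ∀ i, Bounded (c i) (P i)) (gen : ∀ (i : ι) (q : ℤ), (∀ Y : Sch k, SmoothProj Y → P i q Y) →
      ∀ X : Sch k, FT True X → P i q X) (q : ι → ℤ) :
    (∀ (i : ι) (Y : Sch k), SmoothProj Y → P i (q i) Y) ↔
      ∃ᶠ m in Filter.atTop, ∀ i : ι, 2 * c i ≤ m → -(c i : ℤ) ≤ q i → q i ≤ m →
        ∀ N : ℕ, N < 2 ^ numRel m → P i (idx m (q i) N) (cubG k m) := by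
  constructor
  · intro h
    refine Filter.Eventually.frequently ?_
    filter_upwards [Filter.eventually_ge_atTop 1] with m hm i hc h0 h1 N hN
    exact (hP i).of_all hc hm h0 h1 (gen i (q i) (h i)) hN
  · intro h i Y hY
    rcases lt_or_ge (q i) (-(c i : ℤ)) with hq | hq
    · exact (hP i).low_all hq Y hY.ft
    obtain ⟨m₀, hm⟩ := single_index hk Y hY.ft
    obtain ⟨m, hm1, hm2⟩ := (Filter.frequently_atTop.1 h) (max m₀ (max (2 * c i) (q i).toNat))
    have h1 : 2 * c i ≤ m := ((le_max_left _ _).trans (le_max_right _ _)).trans hm1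
    have h2 : q i ≤ m := Int.toNat_le.1 (((le_max_right _ _).trans (le_max_right _ _)).trans hm1)
    exact hm m ((le_max_left _ _).trans hm1) (c i) (P i) (hP i) h1 (q i) hq h2 (hm2 i h1 hq h2)

end Pool.Agent.H367.OT
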