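import Pool.Agent.H367.OT.GComp
import Pool.Agent.H367.OS.Seq
import Pool.Agent.H367.OS.GWu
import Pool.Graph.R_seed8.Y116.UV.Space
import Pool.Graph.R_seed8.Z125.UN.Dim2

/-!
# Graded properties with two out of three and larger bounds, and one sequence of cubic hypersurfaces

The same as `Pool.Agent.H367.OS.GMain` and `GDeg`, for properties that are trivial outside of the range
`-c ≤ q ≤ dim X + c`.
-/

set_option autoImplicit false

open CategoryTheory AlgebraicGeometry MvPolynomial Pool.Agent.Y116.UV Pool.Agent.Z125.UN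
  Pool.Agent.Q193.LT Pool.Agent.H854.SQ
open Pool.Agent.H367.OS (relNum code code_injective jou_smooth)

namespace Pool.Agent.H367.OT

/-- The ring of the hypersurface `G_m = 1` of the graded universal system. -/
abbrev CubRingG (R : Type) [CommRing R] (m : ℕ) : Type :=
  MvPolynomial (EqnG m ⊕ VarG m) R ⧸ Ideal.span {univG R m - 1}

lemma ft_mv (R τ : Type) [CommRing R] [Finite τ] : Algebra.FiniteType R (MvPolynomial τ R) :=
  inferInstance

instance (R : Type) [CommRing R] (m : ℕ) : Algebra.FiniteType R (MvPolynomial (VarG m) R) :=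
  ft_mv R _

instance (R : Type) [CommRing R] (m : ℕ) : Algebra.FiniteType R (CubRingG R m) :=
  Algebra.FiniteType.trans (S := MvPolynomial (EqnG m ⊕ VarG m) R) (ft_mv R _) inferInstance

/-- The affine cubic hypersurface `G_m = 1` of the graded universal system over `R`. -/
noncomputable def cubG (R : Type) [CommRing R] (m : ℕ) : Sch R := aff R (CubRingG R m)

section

variable (R : Type) [CommRing R] (m : ℕ)

/-- The equations of the graded universal system, with numbers. -/
noncomputable def eqsG (l : Fin (Fintype.card (EqnG m))) : MvPolynomial (VarG m) R :=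
  eqnG R ((Fintype.equivFin (EqnG m)).symm l)

/-- Renumbering the variables. -/
noncomputable def renG : MvPolynomial (EqnG m ⊕ VarG m) R ≃ₐ[R]
    MvPolynomial (Fin (Fintype.card (EqnG m))) (MvPolynomial (VarG m) R) :=
  (renameEquiv R (Equiv.sumCongr (Fintype.equivFin (EqnG m)) (Equiv.refl (VarG m)))).trans
    (sumAlgEquiv R (Fin (Fintype.card (EqnG m))) (VarG m))

lemma renG_X (e : EqnG m) : renG R m (X (Sum.inl e)) = X (Fintype.equivFin (EqnG m) e) := by
  rw [renG, AlgEquiv.trans_apply, renameEquiv_apply, rename_X]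
  change sumAlgEquiv R _ _ (X (Sum.inl (Fintype.equivFin (EqnG m) e))) = _
  simp

lemma renG_inr (p : MvPolynomial (VarG m) R) : renG R m (rename Sum.inr p) = C p := by
  have h : ((renG R m : MvPolynomial (EqnG m ⊕ VarG m) R →ₐ[R] _).comp (rename Sum.inr) :
      MvPolynomial (VarG m) R →ₐ[R] _) = IsScalarTower.toAlgHom R (MvPolynomial (VarG m) R)
        (MvPolynomial (Fin (Fintype.card (EqnG m))) (MvPolynomial (VarG m) R)) := by
    apply MvPolynomial.algHom_ext
    intro v
    change renG R m (rename Sum.inr (X v)) = C (X v)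
    rw [rename_X, renG, AlgEquiv.trans_apply, renameEquiv_apply, rename_X]
    change sumAlgEquiv R _ _ (X (Sum.inr v)) = _
    simp
  exact DFunLike.congr_fun h p

lemma renG_univG : renG R m (univG R m - 1) = ∑ l, C (eqsG R m l) * X l - 1 := by
  rw [map_sub, map_one, univG, map_sum]
  congr 1
  refine Fintype.sum_equiv (Fintype.equivFin (EqnG m)) _ _ fun e => ?_
  rw [map_mul, renG_X, renG_inr, eqsG, Equiv.symm_apply_apply, mul_comm]

/-- The hypersurface is the affine bundle of Jouanolou over the complement of the zero set. -/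
noncomputable def cubEquivG : CubRingG R m ≃ₐ[R] Jou (eqsG R m) :=
  Ideal.quotientEquivAlg _ _ (renG R m) (by
    rw [Ideal.map_span, Set.image_singleton]
    congr 2
    exact (renG_univG R m).symm)

lemma idealG_eq (k : Type) [Field k] : Ideal.span (Set.range (eqsG k m)) = idealG k m := by
  rw [idealG]
  congr 1
  ext p
  constructor
  · rintro ⟨l, rfl⟩
    exact ⟨_, rfl⟩
  · rintro ⟨e, rfl⟩
    exact ⟨Fintype.equivFin (EqnG m) e, by rw [eqsG, Equiv.symm_apply_apply]⟩

/-- The ring of the hypersurface is smooth over `R`, for every ring `R`. -/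
theorem cubG_smooth : Algebra.Smooth R (CubRingG R m) := by
  have h1 : Algebra.Smooth (MvPolynomial (VarG m) R) (Jou (eqsG R m)) := jou_smooth _
  have h2 : Algebra.Smooth R (MvPolynomial (VarG m) R) := ⟨inferInstance, inferInstance⟩
  have h3 : Algebra.Smooth R (Jou (eqsG R m)) := Algebra.Smooth.comp R (MvPolynomial (VarG m) R) _
  exact Algebra.Smooth.of_equiv (cubEquivG R m).symm

/-- The hypersurface is smooth. -/
theorem smooth_cubG : Smooth (cubG R m).hom := by
  change Smooth (Spec.map (CommRingCat.ofHom (algebraMap R (CubRingG R m))))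
  rw [HasRingHomProperty.Spec_iff (P := @Smooth)]
  exact RingHom.smooth_algebraMap.mpr (cubG_smooth R m)

end

/-- `G_m` has integral coefficients and degree at most three, and the hypersurface `G_m = 1` is smooth
over all rings. -/
theorem cubG_facts (m : ℕ) : (univG ℤ m).totalDegree ≤ 3 ∧
    ∀ (R : Type) [CommRing R], MvPolynomial.map (Int.castRingHom R) (univG ℤ m) = univG R m ∧
      Smooth (cubG R m).hom :=
  ⟨totalDegree_univG ℤ m, fun R _ => ⟨map_univG _ m, smooth_cubG R m⟩⟩

/-- A family of properties `P q`, `q ∈ ℤ`, of the separated schemes of finite type over the field `k`.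
Each `P q` is invariant under isomorphisms and has the two-out-of-three property for a closed subscheme
and its open complement; for the affine bundle `Spec B[w_1, …, w_m] / (∑ f_l w_l - 1) → U` with fibre
`𝔸^{m-1}`, where `U` is the complement of `f = 0` in `Spec B`, the property `P q` of the total space is
the property `P (q - (m - 1))` of `U`; and `P q` is true for affine schemes of dimension at most `n` if
`q < -c` or `q > n + c`. -/
structure Bounded {k : Type} [Field k] (c : ℕ) (P : ℤ → Sch k → Prop) : Prop where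
  iso : ∀ {X Y : Sch k}, FT True X → Nonempty (X ≅ Y) → ∀ q, P q X → P q Y
  total : ∀ {Z X U : Sch k} (i : Z ⟶ X) (j : U ⟶ X), FT True X → IsTriple i j →
    ∀ q, P q Z → P q U → P q X
  opened : ∀ {Z X U : Sch k} (i : Z ⟶ X) (j : U ⟶ X), FT True X → IsTriple i j →
    ∀ q, P q Z → P q X → P q U
  closed : ∀ {Z X U : Sch k} (i : Z ⟶ X) (j : U ⟶ X), FT True X → IsTriple i j →
    ∀ q, P q X → P q U → P q Z
  bundle : ∀ (B : Type) [CommRing B] [Algebra k B] [Algebra.FiniteType k B] (m : ℕ)
    (f : Fin m → B) (U : Sch k) (j : U ⟶ aff k B), IsOpenImmersion j.left →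
    Set.range j.left = {x : PrimeSpectrum B | ∃ l, f l ∉ x.asIdeal} →
    ∀ q, P q (aff k (Jou f)) ↔ P (q + (1 - m)) U
  low : ∀ (B : Type) [CommRing B] [Algebra k B] [Algebra.FiniteType k B] (q : ℤ), q < -c →
    P q (aff k B)
  high : ∀ (B : Type) [CommRing B] [Algebra k B] [Algebra.FiniteType k B] (n : ℕ),
    ringKrullDim B ≤ n → ∀ q : ℤ, (n : ℤ) + c < q → P q (aff k B)

section code

variable {n : ℕ}

lemma card_extIn (s : Finset (Rel (Fin n))) : Nat.card (ExtIn s) = (n + 1) ^ 2 * code s := by
  have e : ExtIn s ≃ Σ r : {r // r ∈ s}, Fin (mult r.1) :=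
    Equiv.subtypeSigmaEquiv (fun r : Rel (Fin n) => Fin (mult r)) (fun r => r ∈ s)
  rw [Nat.card_congr e, Nat.card_eq_fintype_card, Fintype.card_sigma, code, Finset.mul_sum,
    ← Finset.sum_coe_sort s]
  exact Finset.sum_congr rfl fun r _ => Fintype.card_fin _

/-- The number of the relations. -/
abbrev numRel (n : ℕ) : ℕ := n * (n * n) + (n * (n * n) + n)

lemma code_lt (s : Finset (Rel (Fin n))) : code s < 2 ^ numRel n := by
  let f : Rel (Fin n) ↪ ℕ := ⟨fun r => (relNum n r : ℕ), fun a b hab =>
    (relNum n).injective (Fin.ext hab)⟩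
  have h1 : code s = ∑ i ∈ s.map f, 2 ^ i := by
    rw [Finset.sum_map]
    rfl
  rw [h1]
  refine Nat.geomSum_lt le_rfl fun i hi => ?_
  obtain ⟨r, -, rfl⟩ := Finset.mem_map.1 hi
  exact (relNum n r).2

lemma code_univ : code (Finset.univ : Finset (Rel (Fin n))) = 2 ^ numRel n - 1 := by
  rw [code]
  have h1 : ∑ r : Rel (Fin n), 2 ^ (relNum n r : ℕ) = ∑ i : Fin (numRel n), 2 ^ (i : ℕ) :=
    Fintype.sum_equiv (relNum n) _ _ fun r => rfl
  rw [h1, Fin.sum_univ_eq_sum_range (fun i => 2 ^ i) (numRel n), Nat.geomSum_eq le_rfl]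
  simp

/-- The number of the variables. -/
lemma card_varG {N : ℕ} (hN : N < 2 ^ numRel n) :
    (n + 1) ^ 2 * N + (n + n * n) ≤ Nat.card (VarG n) := by
  have h1 : Nat.card (ExtIn (Finset.univ : Finset (Rel (Fin n)))) ≤ Nat.card (Ext n) :=
    Nat.card_le_card_of_injective _ Subtype.val_injective
  rw [card_extIn, code_univ] at h1
  have h2 : n + n * n ≤ Nat.card (Var n) := by
    rw [Nat.card_eq_fintype_card, Fintype.card_sum, Fintype.card_sum, Fintype.card_fin,
      Fintype.card_prod, Fintype.card_fin]
    nlinarith [Nat.zero_le (Fintype.card (Rel (Fin n)))]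
  have h3 : Nat.card (VarG n) = Nat.card (Var n) + Nat.card (Ext n) := Nat.card_sum
  have h4 : (n + 1) ^ 2 * N ≤ (n + 1) ^ 2 * (2 ^ numRel n - 1) :=
    Nat.mul_le_mul_left _ (by omega)
  omega

end code

section graduated

variable {k : Type} [Field k] {P : ℤ → Sch k → Prop} {c : ℕ} (hP : Bounded c P)

include hP

lemma Bounded.iso_alg {A B : Type} [CommRing A] [CommRing B] [Algebra k A] [Algebra k B]
    [Algebra.FiniteType k A] (e : A ≃ₐ[k] B) {q : ℤ} (h : P q (aff k A)) : P q (aff k B) :=
  hP.iso (ft_aff True) ⟨(affIso e).symm⟩ q h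

/-- Products with affine spaces. -/
lemma Bounded.poly_fin (B : Type) [CommRing B] [Algebra k B] [Algebra.FiniteType k B] (n : ℕ)
    (q : ℤ) : P q (aff k (MvPolynomial (Fin n) B)) ↔ P (q - n) (aff k B) := by
  have h1 : IsOpenImmersion (𝟙 (aff k B) : aff k B ⟶ aff k B).left :=
    inferInstanceAs (IsOpenImmersion (𝟙 (aff k B).left))
  have h2 : Set.range (𝟙 (aff k B) : aff k B ⟶ aff k B).left =
      {x : PrimeSpectrum B | ∃ l, f1 B n l ∉ x.asIdeal} := by
    have h1 : Set.range (𝟙 (aff k B) : aff k B ⟶ aff k B).left = Set.univ := Set.range_id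
    have h2 : {x : PrimeSpectrum B | ∃ l, f1 B n l ∉ x.asIdeal} = Set.univ := by
      rw [Set.eq_univ_iff_forall]
      intro x
      exact ⟨0, fun h => x.isPrime.ne_top ((Ideal.eq_top_iff_one _).mpr h)⟩
    exact h1.trans h2.symm
  have h3 := hP.bundle B (n + 1) (f1 B n) (aff k B) (𝟙 _) h1 h2 q
  have h4 : q + (1 - ((n + 1 : ℕ) : ℤ)) = q - n := by push_cast; ring
  rw [h4] at h3
  rw [← h3]
  have : Algebra.FiniteType k (Jou (f1 B n)) :=
    Algebra.FiniteType.trans (S := B) inferInstance inferInstance
  have : Algebra.FiniteType k (MvPolynomial (Fin n) B) :=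
    Algebra.FiniteType.trans (S := B) inferInstance inferInstance
  exact ⟨hP.iso_alg ((jouOne B n).restrictScalars k).symm,
    hP.iso_alg ((jouOne B n).restrictScalars k)⟩

lemma Bounded.poly (B : Type) [CommRing B] [Algebra k B] [Algebra.FiniteType k B] (τ : Type)
    [Finite τ] (q : ℤ) : P q (aff k (MvPolynomial τ B)) ↔ P (q - Nat.card τ) (aff k B) := by
  have := Fintype.ofFinite τ
  rw [Nat.card_eq_fintype_card, ← hP.poly_fin B (Fintype.card τ) q]
  have : Algebra.FiniteType k (MvPolynomial τ B) :=
    Algebra.FiniteType.trans (S := B) inferInstance inferInstance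
  have : Algebra.FiniteType k (MvPolynomial (Fin (Fintype.card τ)) B) :=
    Algebra.FiniteType.trans (S := B) inferInstance inferInstance
  exact ⟨hP.iso_alg ((renameEquiv B (Fintype.equivFin τ)).restrictScalars k),
    hP.iso_alg ((renameEquiv B (Fintype.equivFin τ).symm).restrictScalars k)⟩

end graduated

section split

variable {k : Type} [Field k] {n : ℕ}

lemma part_congr {F s t : Finset (Rel (Fin n))} (h : ∀ r ∈ F, (r ∈ s ↔ r ∈ t)) :
    part k F s = part k F t := by
  rw [part, part]
  congr 2
  refine Set.image_congr fun r hr => ?_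
  rw [lit, lit]
  by_cases hs : r ∈ s
  · rw [if_pos hs, if_pos ((h r (Finset.mem_coe.1 hr)).1 hs)]
  · rw [if_neg hs, if_neg fun ht => hs ((h r (Finset.mem_coe.1 hr)).2 ht)]

lemma part_empty (s : Finset (Rel (Fin n))) : part k ∅ s = idealG k n := by
  rw [part, Finset.coe_empty, Set.image_empty, Ideal.span_empty, sup_bot_eq]

lemma part_insert [DecidableEq (Rel (Fin n))] (F s : Finset (Rel (Fin n))) (r : Rel (Fin n)) :
    part k (insert r F) s = part k F s ⊔ Ideal.span {lit k s r} := by
  rw [part, part, Finset.coe_insert, Set.image_insert_eq, Ideal.span_insert, sup_assoc,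
    sup_comm (Ideal.span {lit k s r})]

lemma vcG_idem (r : Rel (Fin n)) : vcG k r * vcG k r - vcG k r ∈ idealG k n := by
  refine Ideal.subset_span ⟨.inl (.inr (.inl r)), ?_⟩
  rw [eqnG, eqn, map_sub, map_mul, vc, rename_X]
  rfl

/-- Two complementary parts. -/
lemma triple_idem {A : Type} [CommRing A] [Algebra k A] (I : Ideal A) (c : A)
    (hc : c * c - c ∈ I) :
    IsTriple (affMap (R := k) (Ideal.Quotient.factorₐ k (le_sup_left :
        I ≤ I ⊔ Ideal.span {c})))
      (affMap (R := k) (Ideal.Quotient.factorₐ k (le_sup_left :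
        I ≤ I ⊔ Ideal.span {1 - c}))) := by
  have hker : ∀ d : A, ∀ a : A ⧸ I, Ideal.Quotient.factorₐ k (le_sup_left :
      I ≤ I ⊔ Ideal.span {d}) a = 0 ↔ a ∈ Ideal.span {Ideal.Quotient.mk I d} := by
    intro d a
    obtain ⟨a, rfl⟩ := Ideal.Quotient.mk_surjective a
    change Ideal.Quotient.mk (I ⊔ Ideal.span {d}) a = 0 ↔ _
    rw [Ideal.Quotient.eq_zero_iff_mem, Ideal.mem_span_singleton']
    constructor
    · intro h
      obtain ⟨x, hx, y, hy, rfl⟩ := Submodule.mem_sup.1 h
      obtain ⟨z, rfl⟩ := Ideal.mem_span_singleton'.1 hy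
      refine ⟨Ideal.Quotient.mk I z, ?_⟩
      rw [map_add, Ideal.Quotient.eq_zero_iff_mem.2 hx, zero_add, map_mul]
    · rintro ⟨z, hz⟩
      obtain ⟨z, rfl⟩ := Ideal.Quotient.mk_surjective z
      rw [← map_mul, eq_comm, Ideal.Quotient.eq] at hz
      have h1 : a = (a - z * d) + z * d := by ring
      rw [h1]
      exact Submodule.add_mem_sup hz (Ideal.mul_mem_left _ _ (Ideal.mem_span_singleton_self d))
  have hsurj : ∀ d : A, Function.Surjective (Ideal.Quotient.factorₐ k (le_sup_left :
      I ≤ I ⊔ Ideal.span {d})) := by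
    intro d a
    obtain ⟨a, rfl⟩ := Ideal.Quotient.mk_surjective a
    exact ⟨Ideal.Quotient.mk I a, rfl⟩
  have hcc : Ideal.Quotient.mk I c * Ideal.Quotient.mk I c = Ideal.Quotient.mk I c := by
    rw [← map_mul, ← sub_eq_zero, ← map_sub, Ideal.Quotient.eq_zero_iff_mem]
    exact hc
  refine ⟨closed_affMap _ (hsurj c), ?_, ?_⟩
  · refine (isOpenImmersion_SpecMap_iff_of_surjective _ (hsurj (1 - c))).2
      ⟨Ideal.Quotient.mk I (1 - c), ?_, ?_⟩
    · change Ideal.Quotient.mk I (1 - c) * Ideal.Quotient.mk I (1 - c) =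
        Ideal.Quotient.mk I (1 - c)
      rw [map_sub, map_one]
      linear_combination hcc
    · ext a
      exact hker (1 - c) a
  · rw [range_affMap _ (hsurj c), range_affMap _ (hsurj (1 - c))]
    ext x
    have hx : ∀ d : A, (x ∈ {x : PrimeSpectrum (A ⧸ I) | ∀ a,
        (Ideal.Quotient.factorₐ k (le_sup_left : I ≤ I ⊔ Ideal.span {d})) a = 0 →
          a ∈ x.asIdeal}) ↔ Ideal.Quotient.mk I d ∈ x.asIdeal := by
      intro d
      constructor
      · intro h
        exact h _ ((hker d _).2 (Ideal.mem_span_singleton_self _))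
      · intro h a ha
        exact (Ideal.span_singleton_le_iff_mem _).2 h ((hker d a).1 ha)
    refine (hx c).trans (Iff.trans ?_ (not_congr (hx (1 - c))).symm)
    rw [map_sub, map_one]
    constructor
    · intro h h2
      refine x.isPrime.ne_top ((Ideal.eq_top_iff_one _).2 ?_)
      have h3 := Ideal.add_mem _ h h2
      rwa [add_sub_cancel] at h3
    · intro h
      have h1 : Ideal.Quotient.mk I c * (1 - Ideal.Quotient.mk I c) ∈ x.asIdeal := by
        have h2 : Ideal.Quotient.mk I c * (1 - Ideal.Quotient.mk I c) = 0 := by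
          linear_combination -hcc
        rw [h2]
        exact Ideal.zero_mem _
      exact (x.isPrime.mem_or_mem h1).resolve_right h

end split

section graduated

variable {k : Type} [Field k] {P : ℤ → Sch k → Prop} {c : ℕ} (hP : Bounded c P) {n : ℕ}

/-- The part of `W` belonging to `F` and `s`. -/
noncomputable def Pt (k : Type) [Field k] {n : ℕ} (F s : Finset (Rel (Fin n))) : Sch k :=
  aff k (MvPolynomial (VarG n) k ⧸ part k F s)

/-- The two parts of a part. -/
lemma triple_part [DecidableEq (Rel (Fin n))] (F s : Finset (Rel (Fin n))) {r : Rel (Fin n)}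
    (hr : r ∉ F) : ∃ (i : Pt k (insert r F) (s.erase r) ⟶ Pt k F s)
      (j : Pt k (insert r F) (insert r s) ⟶ Pt k F s), IsTriple i j := by
  have h1 : part k F (s.erase r) = part k F s := part_congr fun t ht => by
    have htr : t ≠ r := fun h => hr (h ▸ ht)
    rw [Finset.mem_erase, and_iff_right htr]
  have h2 : part k F (insert r s) = part k F s := part_congr fun t ht => by
    have htr : t ≠ r := fun h => hr (h ▸ ht)
    rw [Finset.mem_insert, or_iff_right htr]
  have h3 : part k (insert r F) (s.erase r) = part k F s ⊔ Ideal.span {vcG k r} := by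
    rw [part_insert, h1, lit, if_neg (Finset.notMem_erase r s)]
  have h4 : part k (insert r F) (insert r s) = part k F s ⊔ Ideal.span {1 - vcG k r} := by
    rw [part_insert, h2, lit, if_pos (Finset.mem_insert_self r s)]
  rw [Pt, Pt, Pt, h3, h4]
  exact ⟨_, _, triple_idem (part k F s) (vcG k r) (Ideal.mem_sup_left (vcG_idem r))⟩

include hP

/-- If `P q` is true for all components of a part, it is true for the part. -/
lemma Bounded.of_components (q : ℤ) (F s : Finset (Rel (Fin n)))
    (h : ∀ t : Finset (Rel (Fin n)), (∀ r ∈ F, (r ∈ t ↔ r ∈ s)) → P q (Pt k Finset.univ t)) :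
    P q (Pt k F s) := by
  classical
  induction hN : (Finset.univ \ F).card generalizing F s with
  | zero =>
    rw [Finset.card_eq_zero, Finset.sdiff_eq_empty_iff_subset, Finset.univ_subset_iff] at hN
    subst hN
    exact h s fun _ _ => Iff.rfl
  | succ N ih =>
    obtain ⟨r, hr⟩ : (Finset.univ \ F).Nonempty := by
      rw [← Finset.card_pos]
      omega
    have hrF : r ∉ F := (Finset.mem_sdiff.1 hr).2
    have hc : (Finset.univ \ insert r F).card = N := by
      rw [Finset.sdiff_insert, Finset.card_erase_of_mem hr, hN, Nat.add_sub_cancel]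
    obtain ⟨i, j, ht⟩ := triple_part (k := k) F s hrF
    refine hP.total i j (ft_aff True) ht q (ih _ _ (fun t ht => h t fun u hu => ?_) hc)
      (ih _ _ (fun t ht => h t fun u hu => ?_) hc)
    · have hur : u ≠ r := fun h => hrF (h ▸ hu)
      rw [ht u (Finset.mem_insert_of_mem hu), Finset.mem_erase, and_iff_right hur]
    · have hur : u ≠ r := fun h => hrF (h ▸ hu)
      rw [ht u (Finset.mem_insert_of_mem hu), Finset.mem_insert, or_iff_right hur]

/-- If `P q` is true for `W` and for all components except one, it is true for this component. -/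
lemma Bounded.component (q : ℤ) (s : Finset (Rel (Fin n)))
    (h0 : P q (aff k (MvPolynomial (VarG n) k ⧸ idealG k n)))
    (h : ∀ t : Finset (Rel (Fin n)), t ≠ s → P q (Pt k Finset.univ t)) :
    P q (Pt k Finset.univ s) := by
  classical
  have key : ∀ F : Finset (Rel (Fin n)), P q (Pt k F s) := by
    intro F
    induction F using Finset.induction_on with
    | empty =>
      rw [Pt, part_empty]
      exact h0
    | insert r F hr ih =>
      obtain ⟨i, j, ht⟩ := triple_part (k := k) F s hr
      by_cases hs : r ∈ s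
      · have h1 : P q (Pt k (insert r F) (s.erase r)) :=
          hP.of_components q _ _ fun t ht => h t fun hts =>
            Finset.notMem_erase r s ((ht r (Finset.mem_insert_self r F)).1 (hts ▸ hs))
        have h2 := hP.opened i j (ft_aff True) ht q h1 ih
        rwa [Finset.insert_eq_of_mem hs] at h2
      · have h1 : P q (Pt k (insert r F) (insert r s)) :=
          hP.of_components q _ _ fun t ht => h t fun hts =>
            hs (hts ▸ (ht r (Finset.mem_insert_self r F)).2 (Finset.mem_insert_self r s))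
        have h2 := hP.closed i j (ft_aff True) ht q ih h1
        rwa [Finset.erase_eq_of_notMem hs] at h2
  exact key _

end graduated

end Pool.Agent.H367.OT
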